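import Mathlib

/-!
# Finite worlds of lines: definitions (helper26)

`ι` is the set of the primes, `p i` the prime, a position is a tuple of residues. `G` is the torus,
`T` a finite union of cosets of the groups `Γ i`. `K i r ⊆ Γ i` is the kernel of the map to the
cells with the residue `r`, `L i` the intersection of all `K i r`. `Gd i x` is the set of the
`g` such that the `i`-line through the cell `x` of the grid `g` is good at this cell.
-/

set_option autoImplicit false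

open Finset

namespace Pool.Agent.H26.EW

/-- tuples of residues -/
abbrev Pos {ι : Type} (p : ι → ℕ) : Type := ∀ i, Fin (p i)

/-- the data -/
structure WD (ι : Type) (p : ι → ℕ) (G : Type) [AddCommGroup G] where
  Γ : ι → AddSubgroup G
  K : ∀ i, Fin (p i) → Finset G
  L : ι → Finset G
  T : Finset G
  V : Pos p → Set G
  Ge : ι → Pos p → Set G
  Gd : ι → Pos p → Set G
  N : ι → ℝ
  m : ℝ
  kk : ℝ

variable {ι : Type} [Fintype ι] [DecidableEq ι] {p : ι → ℕ} {G : Type} [AddCommGroup G]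

/-- the axioms -/
structure WD.Ok (W : WD ι p G) : Prop where
  hp : ∀ i, 0 < p i
  hm : 1 ≤ W.m
  hk : 0 ≤ W.kk
  hN : ∀ i, 0 ≤ W.N i
  K0 : ∀ i r, (0 : G) ∈ W.K i r
  Ka : ∀ i r, ∀ a ∈ W.K i r, ∀ b ∈ W.K i r, a + b ∈ W.K i r
  Kn : ∀ i r, ∀ a ∈ W.K i r, -a ∈ W.K i r
  KΓ : ∀ i r, ∀ a ∈ W.K i r, a ∈ W.Γ i
  L0 : ∀ i, (0 : G) ∈ W.L i
  La : ∀ i, ∀ a ∈ W.L i, ∀ b ∈ W.L i, a + b ∈ W.L i
  Ln : ∀ i, ∀ a ∈ W.L i, -a ∈ W.L i
  LK : ∀ i r, W.L i ⊆ W.K i r
  card : ∀ i r, ((W.K i r).card : ℝ) = W.N i * (W.L i).card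
  dis : ∀ i j, i ≠ j → ∀ a ∈ W.Γ i, a ∈ W.Γ j → a = 0
  Tadd : ∀ i, ∀ γ ∈ W.Γ i, ∀ g ∈ W.T, g + γ ∈ W.T
  Vinv : ∀ x i, ∀ κ ∈ W.K i (x i), ∀ g ∈ W.V x, g + κ ∈ W.V x
  GdV : ∀ i x, W.Gd i x ⊆ W.V x
  GdGe : ∀ i x, W.Gd i x ⊆ W.Ge i x
  inv : ∀ i j x, i ≠ j → ∀ κ ∈ W.K j (x j), ∀ g ∈ W.Gd i x, g + κ ∈ W.Gd i x
  invL : ∀ i x, ∀ κ ∈ W.L i, ∀ g ∈ W.Gd i x, g + κ ∈ W.Gd i x
  Geinv : ∀ i j x, i ≠ j → ∀ κ ∈ W.K j (x j), ∀ g ∈ W.Ge i x, g + κ ∈ W.Ge i x
  GeL : ∀ i x, ∀ κ ∈ W.L i, ∀ g ∈ W.Ge i x, g + κ ∈ W.Ge i x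
  Gepos : ∀ i x r, W.Ge i (Function.update x i r) = W.Ge i x
  uniq : ∀ i x, ∀ g ∈ W.Gd i x, ∀ κ ∈ W.K i (x i), g + κ ∈ W.Gd i x → κ ∈ W.L i
  sep : ∀ i, ∀ γ ∈ W.Γ i, γ ∉ W.L i → ∀ R : Finset (Fin (p i)), (∀ r ∈ R, γ ∈ W.K i r) →
    (R.card : ℝ) ≤ W.kk
  list1 : ∀ i x g, ∀ Y : Finset G, (∀ y ∈ Y, y ∈ W.Ge i x ∧ ∃ a ∈ W.Γ i, y = g + a) →
    (∀ y ∈ Y, ∀ y' ∈ Y, (∃ a ∈ W.L i, y' = y + a) → y = y') → (Y.card : ℝ) ≤ W.m
  list2 : ∀ i j x g, i ≠ j → ∀ Y : Finset G,
    (∀ y ∈ Y, y ∈ W.Ge i x ∧ ∃ a ∈ W.Γ i, ∃ b ∈ W.Γ j, y = g + a + b) →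
    (∀ y ∈ Y, ∀ y' ∈ Y, (∃ a ∈ W.L i, ∃ b ∈ W.K j (x j), y' = y + a + b) → y = y') →
      (Y.card : ℝ) ≤ W.m

open Classical in
/-- the indicator function of a set -/
noncomputable def ind (A : Set G) (g : G) : ℝ := if g ∈ A then 1 else 0

/-- the average over the positions -/
noncomputable def avP (F : Pos p → ℝ) : ℝ := (Fintype.card (Pos p) : ℝ)⁻¹ * ∑ x, F x

/-- the average over `T` -/
noncomputable def avT (W : WD ι p G) (F : G → ℝ) : ℝ := (W.T.card : ℝ)⁻¹ * ∑ g ∈ W.T, F g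

open Classical in
/-- the labels which are not in `L i` -/
noncomputable def KL (W : WD ι p G) (i : ι) (r : Fin (p i)) : Finset G :=
  (W.K i r).filter fun κ => κ ∉ W.L i

/-- the normalised sum over the labels of the prime `i` at the residue `r` -/
noncomputable def Lb (W : WD ι p G) (i : ι) (r : Fin (p i)) (F : G → ℝ) (g : G) : ℝ :=
  ((W.L i).card : ℝ)⁻¹ * ∑ κ ∈ W.K i r, F (g + κ)

/-- the normalised sum over the labels of the primes of a list at the position `x` -/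
noncomputable def SL (W : WD ι p G) : List ι → Pos p → (G → ℝ) → G → ℝ
  | [], _, F => F
  | i :: l, x, F => Lb W i (x i) (SL W l x F)

/-- the part of the product of two sums with different labels -/
noncomputable def OD (W : WD ι p G) (l : List ι) (x : Pos p) (F F' : G → ℝ) (g : G) : ℝ :=
  SL W l x F g * SL W l x F' g - SL W l x (fun g => F g * F' g) g

/-- the position with the residues of `t` on `l` and of `x` elsewhere -/
def mx (l : List ι) (x t : Pos p) : Pos p := fun i => if i ∈ l then t i else x i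

/-- a walk in the grid `g` from the position `x` to the residues of `t` along the primes of `l` -/
def Wk (W : WD ι p G) : List ι → Pos p → Pos p → G → Prop
  | [], x, _, g => g ∈ W.V x
  | i :: l, x, t, g => g ∈ W.Gd i x ∧ g ∈ W.Gd i (Function.update x i (t i)) ∧
      Wk W l (Function.update x i (t i)) t g

/-- the indicator function of the walks -/
noncomputable def wk (W : WD ι p G) (l : List ι) (x t : Pos p) : G → ℝ := ind {g | Wk W l x t g}

/-- the cell `x` of the grid `g` lies on a good `q`-line which does not belong to `g` -/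
def For (W : WD ι p G) (q : ι) (x : Pos p) : Set G :=
  {g | ∃ κ ∈ W.K q (x q), κ ∉ W.L q ∧ g + κ ∈ W.Gd q x}

/-- the normalised number of the good `i`-lines -/
noncomputable def ee (W : WD ι p G) (i : ι) : ℝ := W.N i * avP fun x => avT W (ind (W.Ge i x))

/-- the product of the numbers `N i` over a list -/
noncomputable def Nl (W : WD ι p G) (l : List ι) : ℝ := (l.map W.N).prod

open Classical in
/-- pairs of good `i`-lines with different labels through the positions `c₁` and `c₂` -/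
noncomputable def FR (W : WD ι p G) (i : ι) (c₁ c₂ : Pos p) (g : G) : ℝ :=
  (((W.L i).card : ℝ)⁻¹) ^ 2 * ∑ κ ∈ W.K i (c₁ i), ∑ κ' ∈ W.K i (c₁ i),
    if κ' - κ ∈ W.L i then 0 else ind (W.Gd i c₁) (g + κ) * ind (W.Gd i c₂) (g + κ')

/-- the number of the alive cells -/
noncomputable def vv (W : WD ι p G) : ℝ := avP fun x => avT W (ind (W.V x))

/-- the number of the walks -/
noncomputable def MM (W : WD ι p G) (l : List ι) : ℝ :=
  Nl W l * avP fun x => avP fun s => avT W (wk W l x s)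

/-- the number of the pairs of walks in the same grid with the same beginning -/
noncomputable def Co (W : WD ι p G) (l : List ι) : ℝ :=
  Nl W l * avP fun x => avP fun s => avP fun r => avT W fun g => wk W l x s g * wk W l x r g

/-- state functions: they depend on the cell `x` of the grid only -/
def St (W : WD ι p G) (F : Pos p → G → ℝ) : Prop :=
  ∀ x i, ∀ κ ∈ W.K i (x i), ∀ g, F x (g + κ) = F x g

/-- the inner product -/
noncomputable def ip (W : WD ι p G) (F H : Pos p → G → ℝ) : ℝ :=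
  avP fun x => avT W fun g => F x g * H x g

/-- one random step along a good `i`-line -/
noncomputable def TT (W : WD ι p G) (i : ι) (F : Pos p → G → ℝ) (x : Pos p) : G → ℝ :=
  Lb W i (x i) fun g => ind (W.Gd i x) g * ((p i : ℝ)⁻¹ * ∑ r : Fin (p i),
    ind (W.Gd i (Function.update x i r)) g * F (Function.update x i r) g)

/-- random steps along a list -/
noncomputable def TL (W : WD ι p G) : List ι → Pos p → G → ℝ
  | [], x => ind (W.V x)
  | i :: l, x => TT W i (TL W l) x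

end Pool.Agent.H26.EW
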