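import Pool.Agent.H26.EW.Defs

/-!
# Finite worlds of lines: targets (helper26)

Page: H26_E21_WALKS.md (team store). Every `T_X` is a proposition to be proved in a module of its
own.
-/

set_option autoImplicit false

open Finset

namespace Pool.Agent.H26.EW

/-! ## 1. Averages and sums over labels -/

/-- AVE: averages. -/
def T_AVE : Prop :=
  ∀ (ι : Type) [Fintype ι] [DecidableEq ι] (p : ι → ℕ) (G : Type) [AddCommGroup G] (W : WD ι p G),
    W.Ok →
    (∀ i, ∀ γ ∈ W.Γ i, ∀ F : G → ℝ, avT W (fun g => F (g + γ)) = avT W F) ∧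
    (∀ i r (F : G → ℝ), avT W (Lb W i r F) = W.N i * avT W F) ∧
    (∀ l x (F : G → ℝ), avT W (SL W l x F) = Nl W l * avT W F) ∧
    (∀ i r (F H : G → ℝ), (∀ g, ∀ κ ∈ W.K i r, H (g + κ) = H g) →
      avT W (fun g => H g * Lb W i r F g) = W.N i * avT W (fun g => H g * F g)) ∧
    (∀ i (F : Pos p → ℝ), avP F = avP fun x => ((p i : ℝ)⁻¹ * ∑ r, F (Function.update x i r))) ∧
    (∀ (l : List ι) (F : Pos p → Pos p → ℝ), (∀ z t t', (∀ i ∈ l, t i = t' i) → F z t = F z t') →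
      (avP fun x => avP fun s => F (mx l x s) x) = avP fun z => avP fun t => F z t)

/-- SLB: sums over labels. -/
def T_SLB : Prop :=
  ∀ (ι : Type) [Fintype ι] [DecidableEq ι] (p : ι → ℕ) (G : Type) [AddCommGroup G] (W : WD ι p G),
    W.Ok →
    (∀ l (x x' : Pos p) (F : G → ℝ), (∀ i ∈ l, x i = x' i) → SL W l x F = SL W l x' F) ∧
    (∀ l x (F H : G → ℝ), (∀ g, F g ≤ H g) → ∀ g, SL W l x F g ≤ SL W l x H g) ∧
    (∀ l x (F H : G → ℝ) g, SL W l x (fun g => F g + H g) g = SL W l x F g + SL W l x H g) ∧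
    (∀ l x (c : ℝ) (F : G → ℝ) g, SL W l x (fun g => c * F g) g = c * SL W l x F g) ∧
    (∀ l x (F H : G → ℝ), (∀ i ∈ l, ∀ κ ∈ W.K i (x i), ∀ g, H (g + κ) = H g) → ∀ g,
      SL W l x (fun g => H g * F g) g = H g * SL W l x F g) ∧
    (∀ l x (F : G → ℝ) (a : G), SL W l x (fun g => F (g + a)) = fun g => SL W l x F (g + a)) ∧
    (∀ l x i r (F : G → ℝ), SL W l x (Lb W i r F) = Lb W i r (SL W l x F))

/-- WKB: walks. -/
def T_WKB : Prop :=
  ∀ (ι : Type) [Fintype ι] [DecidableEq ι] (p : ι → ℕ) (G : Type) [AddCommGroup G] (W : WD ι p G),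
    W.Ok → ∀ l : List ι, l.Nodup → ∀ (x t : Pos p) (g : G),
    (∀ i ∉ l, ∀ κ ∈ W.K i (x i), wk W l x t (g + κ) = wk W l x t g) ∧
    (∀ i ∈ l, ∀ κ ∈ W.L i, wk W l x t (g + κ) = wk W l x t g) ∧
    (∀ t' : Pos p, (∀ i ∈ l, t i = t' i) → wk W l x t g = wk W l x t' g) ∧
    (Wk W l x t g → g ∈ W.V x ∧ g ∈ W.V (mx l x t)) ∧
    (Wk W l x t g ↔ Wk W l.reverse (mx l x t) x g)

/-- DRP: every grid has at most one label. -/
def T_DRP : Prop :=
  ∀ (ι : Type) [Fintype ι] [DecidableEq ι] (p : ι → ℕ) (G : Type) [AddCommGroup G] (W : WD ι p G),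
    W.Ok →
    (∀ i x g, Lb W i (x i) (ind (W.Gd i x)) g ≤ 1) ∧
    (∀ l : List ι, l.Nodup → ∀ (x t : Pos p) (g : G), 0 ≤ SL W l x (wk W l x t) g ∧
      SL W l x (wk W l x t) g ≤ ind (W.V x) g) ∧
    (∀ (i : ι) (x : Pos p) (g : G), ((W.L i).card : ℝ)⁻¹ * (∑ κ ∈ KL W i (x i), ind (W.Gd i x) (g + κ)) ≤
        ind (For W i x) g)

/-- ODM: the part with different labels is monotone. -/
def T_ODM : Prop :=
  ∀ (ι : Type) [Fintype ι] [DecidableEq ι] (p : ι → ℕ) (G : Type) [AddCommGroup G] (W : WD ι p G),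
    W.Ok → ∀ l : List ι, l.Nodup → ∀ (x : Pos p) (F F' H H' : G → ℝ), (∀ g, 0 ≤ F g ∧ F g ≤ F' g) →
    (∀ g, 0 ≤ H g ∧ H g ≤ H' g) →
    (∀ i ∈ l, ∀ κ ∈ W.L i, ∀ g, F (g + κ) = F g ∧ F' (g + κ) = F' g ∧ H (g + κ) = H g ∧
      H' (g + κ) = H' g) →
    ∀ g, 0 ≤ OD W l x F H g ∧ OD W l x F H g ≤ OD W l x F' H' g

/-- ODR: one step of two walks. -/
def T_ODR : Prop :=
  ∀ (ι : Type) [Fintype ι] [DecidableEq ι] (p : ι → ℕ) (G : Type) [AddCommGroup G] (W : WD ι p G),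
    W.Ok → ∀ (i : ι) (l : List ι), (i :: l).Nodup → ∀ x c₁ c₂ t₁ t₂ : Pos p,
    (∀ j ∈ i :: l, c₁ j = x j ∧ c₂ j = x j) → ∀ g,
    OD W (i :: l) x (wk W (i :: l) c₁ t₁) (wk W (i :: l) c₂ t₂) g ≤
      FR W i c₁ c₂ g +
      Lb W i (x i) (fun g => ind (W.Gd i c₁) g * ind (W.Gd i (Function.update c₁ i (t₁ i))) g *
        (ind (W.Gd i c₂) g * ind (W.Gd i (Function.update c₂ i (t₂ i))) g) *
        OD W l x (wk W l (Function.update c₁ i (t₁ i)) t₁)
          (wk W l (Function.update c₂ i (t₂ i)) t₂) g) g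

/-! ## 2. Tables -/

/-- TAB: pairs of good `i`-lines with different labels which cross the same `j`-line. The weight
`h z g` says that the `j`-line of `g` is the line which we look at. -/
def T_TAB : Prop :=
  ∀ (ι : Type) [Fintype ι] [DecidableEq ι] (p : ι → ℕ) (G : Type) [AddCommGroup G] (W : WD ι p G),
    W.Ok → ∀ (i j : ι), i ≠ j → ∀ (x : Pos p) (y : Fin (p j)) (h : Fin (p i) → G → ℝ),
    (∀ z g, 0 ≤ h z g) → (∀ z g, ∀ κ ∈ W.L i, h z (g + κ) = h z g) →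
    (∀ z g, Lb W j (x j) (h z) g ≤ 1) →
    ∑ z : Fin (p i), avT W (fun g => h z g * ind (W.Gd i (Function.update x i z)) g *
      (((W.L i).card : ℝ)⁻¹ * ∑ κ ∈ KL W i z,
        ind (W.Gd i (Function.update (Function.update x i z) j y)) (g + κ))) * W.N j ≤
      W.kk * W.m * avT W (ind (W.Ge i x))

/-- TFR: the same for `FR`. -/
def T_TFR : Prop :=
  ∀ (ι : Type) [Fintype ι] [DecidableEq ι] (p : ι → ℕ) (G : Type) [AddCommGroup G] (W : WD ι p G),
    W.Ok → ∀ (i j : ι), i ≠ j → ∀ (x : Pos p) (y : Fin (p j)) (h : Fin (p i) → G → ℝ),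
    (∀ z g, 0 ≤ h z g) → (∀ z g, ∀ κ ∈ W.K i z, h z (g + κ) = h z g) →
    (∀ z g, Lb W j (x j) (h z) g ≤ 1) →
    W.N j * ((p i : ℝ)⁻¹ * ∑ z : Fin (p i), avT W (fun g => h z g *
      FR W i (Function.update x i z) (Function.update (Function.update x i z) j y) g)) ≤
      W.kk * W.m / p i * (W.N i * avT W (ind (W.Ge i x)))

/-- INC: the walks from two columns of a good `q`-line have different labels rarely. `J` is the
list of the primes of the steps which have been made, `l` the list of the others, `U` the set of the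
grids which contain the history. -/
def T_INC : Prop :=
  ∀ (ι : Type) [Fintype ι] [DecidableEq ι] (p : ι → ℕ) (G : Type) [AddCommGroup G] (W : WD ι p G),
    W.Ok → ∀ P : ℝ, 0 < P → (∀ i, P ≤ p i) → ∀ (q : ι) (l J : List ι), (J ++ l).Nodup →
    q ∉ J ++ l → ∀ U : Pos p → Pos p → Fin (p q) → Set G,
    (∀ z t y, ∀ j ∈ l, ∀ κ ∈ W.K j (z j), ∀ g ∈ U z t y, g + κ ∈ U z t y) →
    (∀ z t y g, SL W J t (Lb W q (z q) (ind (U z t y))) g ≤ 1) →
    Nl W J * W.N q * (avP fun z => avP fun t => ((p q : ℝ)⁻¹ * ∑ y, avT W (fun g =>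
      ind (U z t y) g * OD W l z (wk W l (mx J z t) t)
        (wk W l (Function.update (mx J z t) q y) t) g))) ≤
      (l.map fun i => W.kk * W.m / P * ee W i).sum

/-! ## 3. The composite pair lemma -/

/-- ST2: few columns of a row lie on foreign good lines. -/
def T_ST2 : Prop :=
  ∀ (ι : Type) [Fintype ι] [DecidableEq ι] (p : ι → ℕ) (G : Type) [AddCommGroup G] (W : WD ι p G),
    W.Ok → ∀ (q : ι) (x : Pos p) (g : G) (B : Finset (Fin (p q))),
    (∀ y ∈ B, g ∈ For W q (Function.update x q y)) → (B.card : ℝ) ≤ W.kk * W.m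

/-- STC: the pointwise inequality on one `q`-line. `C y` is the indicator function of the
configurations in the column `y`, `f y` of those with a foreign line. -/
def T_STC : Prop :=
  ∀ (ι : Type) [Fintype ι] [DecidableEq ι] (p : ι → ℕ) (G : Type) [AddCommGroup G] (W : WD ι p G),
    W.Ok → ∀ (q : ι) (l : List ι), l.Nodup → ∀ (x : Pos p) (C f : Fin (p q) → G → ℝ) (v θ : ℝ),
    0 < v → 0 ≤ θ → (∀ y g, 0 ≤ f y g ∧ f y g ≤ C y g) →
    (∀ y, ∀ i ∈ l, ∀ κ ∈ W.L i, ∀ g, C y (g + κ) = C y g ∧ f y (g + κ) = f y g) →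
    (∀ g, (p q : ℝ)⁻¹ * ∑ y, f y g ≤ θ) → ∀ A : Set G,
    (∀ y g, SL W l x (C y) g ≤ ind A g) → ∀ g,
    SL W l x (fun g => (p q : ℝ)⁻¹ * ∑ y, f y g) g ≤ (θ + v) * ind A g +
      1 / v * ((p q : ℝ)⁻¹ * ((p q : ℝ)⁻¹ * ∑ y, ∑ y', OD W l x (C y) (C y') g))

/-- LAD: the ladder lemma: foreign good `q`-lines through an arbitrary row of the grid of a walk
which begins on a good `q`-line. -/
def T_LAD : Prop :=
  ∀ (ι : Type) [Fintype ι] [DecidableEq ι] (p : ι → ℕ) (G : Type) [AddCommGroup G] (W : WD ι p G),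
    W.Ok → ∀ P v : ℝ, 0 < P → 0 < v → (∀ i, P ≤ p i) → ∀ (q : ι) (l : List ι), l.Nodup → q ∉ l →
    Nl W l * W.N q * (avP fun z => avP fun t => avP fun s => avT W (fun g =>
      wk W l z t g * ind (W.Gd q z) g * ind (For W q (mx l z s)) g)) ≤
      (W.kk * W.m / P + v) * ee W q + 1 / v * (l.map fun i => W.kk * W.m / P * ee W i).sum

/-- VPR: pairs of walks with the same beginning have different labels rarely. -/
def T_VPR : Prop :=
  ∀ (ι : Type) [Fintype ι] [DecidableEq ι] (p : ι → ℕ) (G : Type) [AddCommGroup G] (W : WD ι p G),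
    W.Ok → ∀ P v : ℝ, 0 < P → 0 < v → (∀ i, P ≤ p i) → ∀ l : List ι, l.Nodup →
    (avP fun x => avP fun s => avP fun r => avT W (OD W l x (wk W l x s) (wk W l x r))) ≤
      (W.kk * W.m / P + v + l.length * (W.kk * W.m / (P * v))) * (l.map (ee W)).sum

/-! ## 4. The number of the walks -/

/-- OPR: the operator of one step. -/
def T_OPR : Prop :=
  ∀ (ι : Type) [Fintype ι] [DecidableEq ι] (p : ι → ℕ) (G : Type) [AddCommGroup G] (W : WD ι p G),
    W.Ok →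
    (∀ i (F : Pos p → G → ℝ), St W F → St W (TT W i F)) ∧
    (∀ i (F H : Pos p → G → ℝ), St W F → St W H → ip W H (TT W i F) = ip W (TT W i H) F) ∧
    (∀ i (F : Pos p → G → ℝ), (∀ x g, 0 ≤ F x g ∧ F x g ≤ ind (W.V x) g) →
      ∀ x g, 0 ≤ TT W i F x g ∧ TT W i F x g ≤ ind (W.V x) g) ∧
    (∀ i (F H : Pos p → G → ℝ) (c : ℝ), TT W i (fun x g => F x g + c * H x g) =
      fun x g => TT W i F x g + c * TT W i H x g)

/-- TLW: random steps along a list without repetitions are walks. -/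
def T_TLW : Prop :=
  ∀ (ι : Type) [Fintype ι] [DecidableEq ι] (p : ι → ℕ) (G : Type) [AddCommGroup G] (W : WD ι p G),
    W.Ok →
    (∀ l, St W (TL W l) ∧ (∀ x g, 0 ≤ TL W l x g ∧ TL W l x g ≤ ind (W.V x) g) ∧
      0 ≤ ip W (fun x => ind (W.V x)) (TL W l) ∧
      ip W (fun x => ind (W.V x)) (TL W l) ≤ vv W) ∧
    (∀ l : List ι, l.Nodup → (∀ x g, TL W l x g = avP fun s => SL W l x (wk W l x s) g) ∧
      ip W (fun x => ind (W.V x)) (TL W l) = MM W l)

/-- PWA: the power inequality. -/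
def T_PWA : Prop :=
  ∀ (ι : Type) [Fintype ι] [DecidableEq ι] (p : ι → ℕ) (G : Type) [AddCommGroup G] (W : WD ι p G),
    W.Ok → ∀ (r n : ℕ) (c : ℝ), n = 2 ^ r → 0 ≤ c → 0 < Fintype.card ι →
    (n : ℝ) * c ^ (n - 1) *
        ((Fintype.card ι : ℝ)⁻¹ * ∑ i, ip W (fun x => ind (W.V x)) (TL W [i])) -
      (n - 1) * c ^ n * vv W ≤
      ((Fintype.card ι : ℝ) ^ n)⁻¹ * ∑ s : Fin n → ι,
        ip W (fun x => ind (W.V x)) (TL W (List.ofFn s))

open Classical in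
/-- PWR: the power inequality for the numbers of the walks. -/
def T_PWR : Prop :=
  ∀ (ι : Type) [Fintype ι] [DecidableEq ι] (p : ι → ℕ) (G : Type) [AddCommGroup G] (W : WD ι p G),
    W.Ok → ∀ (r n : ℕ) (c : ℝ), n = 2 ^ r → 0 ≤ c → 0 < Fintype.card ι →
    (n : ℝ) * c ^ (n - 1) * ((Fintype.card ι : ℝ)⁻¹ * ∑ i, MM W [i]) - (n - 1) * c ^ n * vv W ≤
      ((Fintype.card ι : ℝ) ^ n)⁻¹ * (∑ s ∈ (univ : Finset (Fin n → ι)).filter
        (fun s => Function.Injective s), MM W (List.ofFn s)) +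
      (n : ℝ) ^ 2 / Fintype.card ι * vv W

/-- COH: many pairs of walks in the same grid. -/
def T_COH : Prop :=
  ∀ (ι : Type) [Fintype ι] [DecidableEq ι] (p : ι → ℕ) (G : Type) [AddCommGroup G] (W : WD ι p G),
    W.Ok → ∀ P v d : ℝ, 0 < P → 0 < v → (∀ i, P ≤ p i) → ∀ l : List ι, l.Nodup →
    2 * d * MM W l - d ^ 2 * vv W -
      (W.kk * W.m / P + v + l.length * (W.kk * W.m / (P * v))) * (l.map (ee W)).sum ≤ Co W l

end Pool.Agent.H26.EW
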