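import Pool.Agent.H26.EW.Targets
import Pool.Agent.H79.HF.Defs

/-!
# The torus as a family of finite worlds (helper26)

Page: H26_E21_WALKS.md (team store).
-/

set_option autoImplicit false

open Finset MeasureTheory

namespace Pool.Agent.H26.EW

open Pool.Agent.H24.CL Pool.Agent.H24.LV Pool.Agent.H26.ES

/-- the primes of the pool as an index type -/
abbrev Id (Q : Finset ℕ) : Type := {q : ℕ // q ∈ Q}

/-- the prime of an index -/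
abbrev pp (Q : Finset ℕ) : Id Q → ℕ := fun i => i.1

open Classical in
/-- the number below `DS Q` with given residues -/
noncomputable def cr (Q : Finset ℕ) (x : Pos (pp Q)) : ℕ :=
  if h : ∃ n : ℕ, n < DS Q ∧ ∀ i : Id Q, n % i.1 = (x i : ℕ) then Classical.choose h else 0

open Classical in
/-- the world of the coset of `b₀` -/
noncomputable def WT {k : ℕ} (Q : Finset ℕ) (V : Set (X k)) (Ge : ℕ → Set (X k))
    (Gd : ℕ → ℕ → Set (X k)) (m : ℝ) (b₀ : X k) : WD (Id Q) (pp Q) (X k) where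
  Γ i := H k i.1 k
  K i r := Kr k i.1 r
  L i := HF k i.1 1
  T := (HF k (DS Q) k).image fun h => b₀ + h
  V x := {b | phi (DS Q) (cr Q x) b ∈ V}
  Ge i x := {b | phi (DS Q / i.1) (cr Q x % (DS Q / i.1)) b ∈ Ge i.1}
  Gd i x := {b | phi (DS Q) (cr Q x) b ∈ V ∧
    phi (DS Q / i.1) (cr Q x % (DS Q / i.1)) b ∈ Gd i.1 (cr Q x / (DS Q / i.1))}
  N i := (i.1 : ℝ) ^ (KN k - k)
  m := m
  kk := k

/-- the mass of the walks -/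
noncomputable def MT {k : ℕ} (Q : Finset ℕ) (V : Set (X k)) (Ge : ℕ → Set (X k))
    (Gd : ℕ → ℕ → Set (X k)) (m : ℝ) (l : List (Id Q)) : ℝ :=
  Nl (WT Q V Ge Gd m 0) l * avP fun x => avP fun s =>
    volume.real {b : X k | Wk (WT Q V Ge Gd m 0) l x s b}

/-- the mass of the pairs of walks in the same grid -/
noncomputable def CT {k : ℕ} (Q : Finset ℕ) (V : Set (X k)) (Ge : ℕ → Set (X k))
    (Gd : ℕ → ℕ → Set (X k)) (m : ℝ) (l : List (Id Q)) : ℝ :=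
  Nl (WT Q V Ge Gd m 0) l * avP fun x => avP fun s => avP fun r =>
    volume.real {b : X k | Wk (WT Q V Ge Gd m 0) l x s b ∧ Wk (WT Q V Ge Gd m 0) l x r b}

/-- the primes of a list -/
def Sl {Q : Finset ℕ} (l : List (Id Q)) : Finset ℕ := (l.map fun i => i.1).toFinset

/-- CRP: the positions. -/
def T_CRP : Prop :=
  ∀ Q : Finset ℕ, (∀ p ∈ Q, p.Prime) →
    (∀ x : Pos (pp Q), cr Q x < DS Q ∧ ∀ i : Id Q, cr Q x % i.1 = (x i : ℕ)) ∧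
    Function.Injective (cr Q) ∧ (∀ n < DS Q, ∃ x : Pos (pp Q), cr Q x = n) ∧
    (∀ (x : Pos (pp Q)) (i : Id Q) (r : Fin (pp Q i)),
      cr Q (Function.update x i r) % (DS Q / i.1) = cr Q x % (DS Q / i.1)) ∧
    (∀ F : ℕ → ℝ, (avP fun x : Pos (pp Q) => F (cr Q x)) =
      1 / (DS Q : ℝ) * ∑ n ∈ range (DS Q), F n)

/-- WOK: the axioms. -/
def T_WOK : Prop :=
  ∀ (k : ℕ) (Q : Finset ℕ) (V : Set (X k)) (Ge : ℕ → Set (X k)) (Gd : ℕ → ℕ → Set (X k))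
    (P m τ Ω : ℝ), SDatP k Q V Ge Gd P m τ Ω → (∀ p ∈ Q, CntM (H k p k) (H k p 1) (Ge p) m) →
    ∀ b₀ : X k, (WT Q V Ge Gd m b₀).Ok

/-- INT: integration over the cosets. -/
def T_INT : Prop :=
  ∀ (k : ℕ) (Q : Finset ℕ) (V : Set (X k)) (Ge : ℕ → Set (X k)) (Gd : ℕ → ℕ → Set (X k)) (m : ℝ),
    (∀ p ∈ Q, 1 ≤ p) → ∀ (F : X k → ℝ) (B : ℝ), Measurable F → (∀ a, |F a| ≤ B) →
    (Measurable fun b₀ : X k => avT (WT Q V Ge Gd m b₀) F) ∧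
    ∫ b₀ : X k, avT (WT Q V Ge Gd m b₀) F = ∫ b : X k, F b

open Classical in
/-- EDG: the mass of the steps. -/
def T_EDG : Prop :=
  ∀ (k : ℕ) (Q : Finset ℕ) (V : Set (X k)) (Ge : ℕ → Set (X k)) (Gd : ℕ → ℕ → Set (X k))
    (P m τ Ω ρ σ : ℝ), SDatP k Q V Ge Gd P m τ Ω → 0 ≤ σ →
    (∀ p ∈ Q, ∀ a ∈ Ge p, σ * p ≤
      (((range p).filter fun y => a ∈ Gd p y ∧ phi p y a ∈ V).card : ℝ)) →
    (∀ p ∈ Q, ρ * Ω ≤ (p : ℝ) ^ (KN k - k) * ((1 / (p : ℝ)) * ∑ y ∈ range p,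
      volume.real {a : X k | a ∈ Gd p y ∧ phi p y a ∈ V})) →
    ∀ i : Id Q, σ * ρ * Ω ≤ MT Q V Ge Gd m [i]

/-- GLO: a list of primes with many pairs of walks in the same grid. -/
def T_GLO : Prop :=
  ∀ k : ℕ, 3 ≤ k → ∀ (Q : Finset ℕ) (V : Set (X k)) (Ge : ℕ → Set (X k)) (Gd : ℕ → ℕ → Set (X k))
    (P m τ Ω ρ : ℝ) (r n : ℕ), SDatP k Q V Ge Gd P m τ Ω →
    (∀ p ∈ Q, CntM (H k p k) (H k p 1) (Ge p) m) → volume.real V ≤ Ω → 0 < Ω → 0 < ρ → ρ ≤ 1 →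
    (∀ i : Id Q, ρ * Ω ≤ MT Q V Ge Gd m [i]) → n = 2 ^ r → 2 * (n : ℝ) ^ 2 ≤ ρ ^ n * Q.card →
    24 * k * (n : ℝ) ^ 2 * m ≤ ρ ^ (2 * n) * P ^ (1 / 2 : ℝ) →
    ∃ l : List (Id Q), l.Nodup ∧ l.length = n ∧ ρ ^ (2 * n) * Ω ≤ 8 * CT Q V Ge Gd m l

/-- SEN: the cells which are seen. -/
def T_SEN : Prop :=
  ∀ (k : ℕ) (Q : Finset ℕ) (V : Set (X k)) (Ge : ℕ → Set (X k)) (Gd : ℕ → ℕ → Set (X k))
    (P m τ Ω κ : ℝ) (U : Set (X k)) (l : List (Id Q)), SDatP k Q V Ge Gd P m τ Ω →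
    (∀ p ∈ Q, CntM (H k p k) (H k p 1) (Ge p) m) → volume.real V ≤ Ω → l.Nodup →
    MeasurableSet U → 0 ≤ κ →
    (∀ b : X k, κ ≤ hd (DS (Sl l)) V b → ∃ S₁ ⊆ Sl l, ∀ x < DS (Sl l),
      κ / 2 ≤ hd (DS S₁) V (phi (DS (Sl l) / DS S₁) (x % (DS (Sl l) / DS S₁)) b) →
        phi (DS (Sl l)) x b ∈ U) →
    CT Q V Ge Gd m l ≤ κ * Ω + 2 * volume.real U

/-- WEH: a dense line contains seen cells (compare `T_WEX`). -/
def T_WEH : Prop :=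
  ∀ k : ℕ, 3 ≤ k → ∀ C₄ : ℝ, 1 ≤ C₄ → ∃ C₃ CR M₀ : ℝ, 1 ≤ C₃ ∧ 1 ≤ CR ∧ 1 ≤ M₀ ∧
    ∀ (M κ : ℝ) (N : ℕ) (S : Finset ℕ) (b : X k), M₀ ≤ M → 1 / M ≤ κ → κ ≤ 1 →
      4096 * M / κ ≤ (N : ℝ) → (N : ℝ) ≤ M ^ C₄ → (∀ p ∈ S, p.Prime) → M ^ C₃ ≤ (DS S : ℝ) →
      κ ≤ hd (DS S) {v : X k | M ^ (-(1 / 2 : ℝ)) / 8 ≤ ‖u N v‖} b →
      ∃ S₁ ⊆ S, ∀ x < DS S,
        κ / 2 ≤ hd (DS S₁) {v : X k | M ^ (-(1 / 2 : ℝ)) / 8 ≤ ‖u N v‖}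
          (phi (DS S / DS S₁) (x % (DS S / DS S₁)) b) →
        phi (DS S) x b ∈ WS k N (M ^ CR) (256 * M / κ)

/-- WSM: the sets of the seen points are monotone. -/
def T_WSM : Prop :=
  ∀ (k N : ℕ) (R R' M M' : ℝ), R ≤ R' → 0 < M → M ≤ M' → WS k N R M ⊆ WS k N R' M'

end Pool.Agent.H26.EW
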